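import Pool.Agent.H14.BR.Stm

/-!
Crew BR, part GS2.
-/

set_option autoImplicit false
set_option linter.unreachableTactic false
set_option linter.unusedTactic false

namespace H28.BR

open ZFSet (pair)
open Pool.Agent.W868
open MeasureTheory H14.ES H46.RF H14.BR

theorem zr_inj (hW : H46.RF.S_WRD) {s s' : ℕ → Bool} (h : zr s = zr s') : s = s' := by
  obtain ⟨-, -, -, -, hb, -⟩ := hW
  funext n
  have h1 : pair (nat n) (bz (s n)) ∈ zr s' := by
    rw [← h]
    exact mem_zr.2 ⟨n, rfl⟩
  obtain ⟨m, hm⟩ := mem_zr.1 h1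
  obtain ⟨h2, h3⟩ := ZFSet.pair_inj.1 hm
  have := nat_injective h2
  subst this
  exact hb h3

theorem gs2 (hCLO : S_CLO) (hNU1 : S_NU1) (hKON : S_KON) (hPMD : S_PMD) (hW : H46.RF.S_WRD) :
    S_GS2 := by
  intro M hMC G hG T hT b hb
  have hM : IsZF M := hMC.toIsZF
  have hIns : Ins M T b := by
    intro s hs hsM
    exact (hb _).2 ⟨s, hs, rfl, hsM⟩
  constructor
  · rintro ⟨-, T', hT', hI⟩
    have hT'P : T' ∈ P M := hG.sub hT'
    have hbody : body T' ⊆ body T := by
      refine hKON M hM T' hT'P.1 T hT.1 hT'P.2.1 hT.2.1 ?_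
      intro s hs hsM
      obtain ⟨s', hs', h1, -⟩ := (hb _).1 (hI s hs hsM)
      rw [zr_inj hW h1]
      exact hs'
    obtain ⟨Q, hQM, hQ⟩ := hPMD M hM
    have hT'M : T' ∈ M := hT'P.1
    have hTM : T ∈ M := hT.1
    have hB := hM.base
    have hdf : Dfn M M fun w : Fin 1 → ZFSet.{0} =>
        (fun S : ZFSet.{0} => S ⊆ T ∨ ∀ U ∈ Q, ¬ (U ⊆ S ∧ U ⊆ T')) (w 0) := by
      simp only
      (repeat' first
        | assumption
        | exact DfnF.proj _
        | exact DfnF.const (by assumption)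
        | apply Dfn.not | apply Dfn.and | apply Dfn.or | apply Dfn.imp | apply Dfn.iff
        | apply hB.bex | apply hB.ball | apply Dfn.ex | apply Dfn.all
        | apply Dfn.eq | apply Dfn.mem | apply hB.subset' | apply hB.pair')
    have hDM := hM.sep_mem (Q := fun S : ZFSet.{0} => S ⊆ T ∨ ∀ U ∈ Q, ¬ (U ⊆ S ∧ U ⊆ T')) hdf hQM
    obtain ⟨S, hSD, hSG⟩ := hG.meet _ hDM (by
        intro S hS
        exact (hQ S).1 (ZFSet.mem_sep.1 hS).1) (by
        intro S hS
        by_cases hU : ∃ U ∈ Q, U ⊆ S ∧ U ⊆ T'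
        · obtain ⟨U, hUQ, hUS, hUT⟩ := hU
          have hUP : U ∈ P M := (hQ U).1 hUQ
          have hUM : U ∈ M := hUP.1
          have hdU : Dfn M M fun w : Fin 1 → ZFSet.{0} => (fun z : ZFSet.{0} => z ∈ T) (w 0) := by
            simp only
            exact Dfn.mem (DfnF.proj _) (DfnF.const hTM)
          have hVM := hM.sep_mem (Q := fun z : ZFSet.{0} => z ∈ T) hdU hUM
          have hVtree : IsTree (ZFSet.sep (fun z : ZFSet.{0} => z ∈ T) U) := by
            constructor
            · intro z hz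
              exact hUP.2.1.word z (ZFSet.mem_sep.1 hz).1
            · intro r n hz
              rw [ZFSet.mem_sep] at hz ⊢
              exact ⟨hUP.2.1.down r n hz.1, hT.2.1.down r n hz.2⟩
          have hVbody : body (ZFSet.sep (fun z : ZFSet.{0} => z ∈ T) U) = body U := by
            ext r
            constructor
            · intro hr n
              exact (ZFSet.mem_sep.1 (hr n)).1
            · intro hr n
              refine ZFSet.mem_sep.2 ⟨hr n, ?_⟩
              exact hbody (fun m => hUT (hr m)) n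
          refine ⟨ZFSet.sep (fun z : ZFSet.{0} => z ∈ T) U, ?_, ?_⟩
          · refine ZFSet.mem_sep.2 ⟨(hQ _).2 ⟨hVM, hVtree, ?_⟩, Or.inl ?_⟩
            · rw [hVbody]
              exact hUP.2.2
            · intro z hz
              exact (ZFSet.mem_sep.1 hz).2
          · intro z hz
            exact hUS (ZFSet.mem_sep.1 hz).1
        · refine ⟨S, ZFSet.mem_sep.2 ⟨(hQ S).2 hS, Or.inr ?_⟩, fun z hz => hz⟩
          intro U hUQ hc
          exact hU ⟨U, hUQ, hc⟩)
    rcases (ZFSet.mem_sep.1 hSD).2 with h | h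
    · exact hG.up S hSG T hT h
    · obtain ⟨U, hUG, hUS, hUT⟩ := hG.dir S hSG T' hT'
      exact absurd ⟨hUS, hUT⟩ (h U ((hQ U).2 (hG.sub hUG)))
  · intro hTG
    refine ⟨⟨hCLO M hM T hT.1 hT.2.1 b hb, hNU1 M hM T hT b hIns⟩, T, hTG, hIns⟩

end H28.BR
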