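import Pool.Agent.H14.BR.Stm

/-!
Crew BR, part REG.
-/

set_option autoImplicit false
set_option linter.unreachableTactic false
set_option linter.unusedTactic false

namespace H28.BR

open ZFSet (pair)
open Pool.Agent.W868
open MeasureTheory H14.ES H46.RF H14.BR

theorem reg (hSGR : S_SGR) (hUNI : S_UNI) (hZRL : S_ZRL) (hW : H46.RF.S_WRD) : S_REG := by
  intro M hMC b hbB
  have hM : IsZF M := hMC.toIsZF
  have hB := hM.base
  obtain ⟨S, hSM, hS⟩ := hSGR M hM
  obtain ⟨hini, -, hZM⟩ := hZRL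
  obtain ⟨⟨Re, hReM, hRe⟩, -, -⟩ := hZM M hM
  obtain ⟨-, -, -, hsub, -, hWM⟩ := hW
  obtain ⟨hiniM, -, ⟨Wd, hWdM, hWd⟩, -⟩ := hWM M hM
  have hom : (ZFSet.omega : ZFSet.{0}) ∈ M := hM.infinity
  have hSig : IsSigma M S := by
    refine ⟨hSM, ?_, ?_, ?_, ?_⟩
    · intro b hb
      exact ((hS b).1 hb).2.1
    · intro r n
      have hrn : ini r n ∈ M := hiniM r n
      have hd1 : Dfn M M fun w : Fin 1 → ZFSet.{0} =>
          (fun x : ZFSet.{0} => ini r n ⊆ x) (w 0) := by
        simp only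
        exact hB.subset' (DfnF.const hrn) (DfnF.proj _)
      have hcM := hM.sep_mem (Q := fun x : ZFSet.{0} => ini r n ⊆ x) hd1 hReM
      have hmem : ∀ x, x ∈ ZFSet.sep (fun x : ZFSet.{0} => ini r n ⊆ x) Re ↔
          IsRealIn M x ∧ ini r n ⊆ x := by
        intro x
        rw [ZFSet.mem_sep, hRe]
      refine ⟨_, (hS _).2 ⟨hcM, fun x hx => ((hmem x).1 hx).1, ?_⟩, hmem⟩
      intro k
      have hd2 : Dfn M M fun w : Fin 1 → ZFSet.{0} =>
          (fun z : ZFSet.{0} => z ⊆ ini r n ∨ ini r n ⊆ z) (w 0) := by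
        simp only
        exact (hB.subset' (DfnF.proj _) (DfnF.const hrn)).or
          (hB.subset' (DfnF.const hrn) (DfnF.proj _))
      have hd3 : Dfn M M fun w : Fin 1 → ZFSet.{0} =>
          (fun z : ZFSet.{0} => ¬ ini r n ⊆ z) (w 0) := by
        simp only
        exact (hB.subset' (DfnF.const hrn) (DfnF.proj _)).not
      refine ⟨_, hM.sep_mem (Q := fun z : ZFSet.{0} => z ⊆ ini r n ∨ ini r n ⊆ z) hd2 hWdM,
        _, hM.sep_mem (Q := fun z : ZFSet.{0} => ¬ ini r n ⊆ z) hd3 hWdM, ?_, ?_, ?_, ?_, ?_⟩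
      · constructor
        · intro z hz
          exact (hWd z).1 (ZFSet.mem_sep.1 hz).1
        · intro r' m hz
          rw [ZFSet.mem_sep] at hz ⊢
          refine ⟨(hWd _).2 ⟨r', m, rfl⟩, ?_⟩
          rcases hz.2 with h | h
          · left
            rw [hsub] at h ⊢
            exact ⟨by omega, fun i hi => h.2 i (by omega)⟩
          · rw [hsub] at h
            rcases Nat.lt_or_ge m n with h1 | h1
            · left
              rw [hsub]
              exact ⟨by omega, fun i hi => (h.2 i (by omega)).symm⟩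
            · right
              rw [hsub]
              exact ⟨h1, h.2⟩
      · constructor
        · intro z hz
          exact (hWd z).1 (ZFSet.mem_sep.1 hz).1
        · intro r' m hz
          rw [ZFSet.mem_sep] at hz ⊢
          refine ⟨(hWd _).2 ⟨r', m, rfl⟩, ?_⟩
          intro h
          apply hz.2
          rw [hsub] at h ⊢
          exact ⟨by omega, h.2⟩
      · intro s hs hsM
        rw [hmem]
        refine ⟨⟨hsM, s, rfl⟩, ?_⟩
        rw [hini]
        rcases (ZFSet.mem_sep.1 (hs n)).2 with h | h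
        · rw [hsub] at h
          exact fun i hi => (h.2 i hi).symm
        · rw [hsub] at h
          exact h.2
      · intro s hs hsM hc
        rw [hmem, hini] at hc
        apply (ZFSet.mem_sep.1 (hs n)).2
        rw [hsub]
        exact ⟨le_rfl, hc.2⟩
      · have huniv : body (ZFSet.sep (fun z : ZFSet.{0} => z ⊆ ini r n ∨ ini r n ⊆ z) Wd ∪
            ZFSet.sep (fun z : ZFSet.{0} => ¬ ini r n ⊆ z) Wd) = Set.univ := by
          rw [Set.eq_univ_iff_forall]
          intro s m
          rw [ZFSet.mem_union]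
          by_cases h : ini r n ⊆ ini s m
          · exact Or.inl (ZFSet.mem_sep.2 ⟨(hWd _).2 ⟨s, m, rfl⟩, Or.inr h⟩)
          · exact Or.inr (ZFSet.mem_sep.2 ⟨(hWd _).2 ⟨s, m, rfl⟩, h⟩)
        rw [huniv, measure_univ]
        exact le_self_add
    · intro b hb
      obtain ⟨hbM, hbR, hbreg⟩ := (hS b).1 hb
      have hd1 : Dfn M M fun w : Fin 1 → ZFSet.{0} =>
          (fun x : ZFSet.{0} => x ∉ b) (w 0) := by
        simp only
        exact (Dfn.mem (DfnF.proj _) (DfnF.const hbM)).not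
      have hcM := hM.sep_mem (Q := fun x : ZFSet.{0} => x ∉ b) hd1 hReM
      have hmem : ∀ x, x ∈ ZFSet.sep (fun x : ZFSet.{0} => x ∉ b) Re ↔
          IsRealIn M x ∧ x ∉ b := by
        intro x
        rw [ZFSet.mem_sep, hRe]
      refine ⟨_, (hS _).2 ⟨hcM, fun x hx => ((hmem x).1 hx).1, ?_⟩, hmem⟩
      intro k
      obtain ⟨T, hT, T', hT', hT1, hT'1, hin, hout, hmu⟩ := hbreg k
      refine ⟨T', hT', T, hT, hT'1, hT1, ?_, ?_, ?_⟩
      · intro s hs hsM
        rw [hmem]
        exact ⟨⟨hsM, s, rfl⟩, hout s hs hsM⟩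
      · intro s hs hsM hc
        rw [hmem] at hc
        exact hc.2 (hin s hs hsM)
      · have : T' ∪ T = T ∪ T' := by
          ext z
          rw [ZFSet.mem_union, ZFSet.mem_union]
          exact or_comm
        rw [this]
        exact hmu
    · intro f hfM hf
      have hd1 : Dfn M M fun w : Fin 1 → ZFSet.{0} =>
          (fun x : ZFSet.{0} => ∃ i ∈ (ZFSet.omega : ZFSet.{0}), ∃ b ∈ S, pair i b ∈ f ∧ x ∈ b)
            (w 0) := by
        simp only
        (repeat' first
          | assumption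
          | exact DfnF.proj _
          | exact DfnF.const (by assumption)
          | apply Dfn.not | apply Dfn.and | apply Dfn.or | apply Dfn.imp | apply Dfn.iff
          | apply hB.bex | apply hB.ball | apply Dfn.ex | apply Dfn.all
          | apply Dfn.eq | apply Dfn.mem | apply hB.subset' | apply hB.pair')
      have hcM := hM.sep_mem (Q := fun x : ZFSet.{0} => ∃ i ∈ (ZFSet.omega : ZFSet.{0}), ∃ b ∈ S,
        pair i b ∈ f ∧ x ∈ b) hd1 hReM
      have hfs : ∀ i b, pair i b ∈ f → i ∈ (ZFSet.omega : ZFSet.{0}) ∧ b ∈ S := by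
        intro i b hib
        have := hf.1 hib
        rw [ZFSet.pair_mem_prod] at this
        exact this
      have hmem : ∀ x, x ∈ ZFSet.sep (fun x : ZFSet.{0} => ∃ i ∈ (ZFSet.omega : ZFSet.{0}),
          ∃ b ∈ S, pair i b ∈ f ∧ x ∈ b) Re ↔ ∃ i b, pair i b ∈ f ∧ x ∈ b := by
        intro x
        rw [ZFSet.mem_sep]
        constructor
        · rintro ⟨-, i, -, b, -, h1, h2⟩
          exact ⟨i, b, h1, h2⟩
        · rintro ⟨i, b, h1, h2⟩
          obtain ⟨hi, hb⟩ := hfs i b h1
          exact ⟨(hRe x).2 (((hS b).1 hb).2.1 x h2), i, hi, b, hb, h1, h2⟩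
      refine ⟨_, (hS _).2 ⟨hcM, fun x hx => (hRe x).1 (ZFSet.mem_sep.1 hx).1, ?_⟩, hmem⟩
      refine hUNI M hMC f hfM ?_ ?_ _ ?_
      · intro i
        exact hf.2 (nat i) (mem_omega_iff.2 ⟨i, rfl⟩)
      · intro i b hib
        exact ((hS b).1 (hfs _ _ hib).2).2.2
      · intro x
        rw [hmem]
        constructor
        · rintro ⟨i, b, h1, h2⟩
          obtain ⟨k, rfl⟩ := mem_omega_iff.1 (hfs _ _ h1).1
          exact ⟨k, b, h1, h2⟩
        · rintro ⟨i, b, h1, h2⟩
          exact ⟨nat i, b, h1, h2⟩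
  exact ((hS b).1 (hbB.2.2 S hSig)).2.2

end H28.BR
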